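import Pool.Agent.N612.BA.Main

/-!
# `𝔪`-completions need not be smallest `(J, M, 𝔪)`-extensions (MP_69a01b_lc, Q1)
-/

namespace Pool.Agent.Results.MP_69a01b_lc.NoSmallest

open Set Cardinal Pool.Agent.N612.BA

universe u

variable {A B : Type u} [BooleanAlgebra A] [BooleanAlgebra B]

/-- `J` is a class of subsets of `A` of size at most `κ` whose join exists. -/
def AdmissibleJoins (κ : Cardinal.{u}) (J : Set (Set A)) : Prop :=
  ∀ S ∈ J, #S ≤ κ ∧ ∃ a, IsLUB S a

/-- `M` is a class of subsets of `A` of size at most `κ` whose meet exists. -/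
def AdmissibleMeets (κ : Cardinal.{u}) (M : Set (Set A)) : Prop :=
  ∀ S ∈ M, #S ≤ κ ∧ ∃ a, IsGLB S a

/-- The pair of `i` and `B` is a `(J, M, κ)`-extension of `A`. -/
structure IsExtension (J M : Set (Set A)) (κ : Cardinal.{u}) (i : BoundedLatticeHom A B) :
    Prop where
  /-- `B` is a Boolean `κ`-algebra -/
  isMAlgebra : IsMAlgebra κ B
  /-- `i` is a `(J, M)`-isomorphism of `A` into `B` -/
  injective : Function.Injective i
  joins : ∀ S ∈ J, ∀ a, IsLUB S a → IsLUB (i '' S) (i a)
  meets : ∀ S ∈ M, ∀ a, IsGLB S a → IsGLB (i '' S) (i a)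
  /-- the image of `A` `κ`-generates `B` -/
  generates : MGenerates κ (range i)

/-- The pair of `i` and `B` is a `κ`-completion of `A`. -/
structure IsMCompletion (κ : Cardinal.{u}) (i : BoundedLatticeHom A B) : Prop where
  /-- `B` is a Boolean `κ`-algebra -/
  isMAlgebra : IsMAlgebra κ B
  injective : Function.Injective i
  /-- the image of `A` is dense -/
  dense : ∀ b : B, b ≠ ⊥ → ∃ a, i a ≠ ⊥ ∧ i a ≤ b
  /-- the image of `A` `κ`-generates `B` -/
  generates : MGenerates κ (range i)

/-- For every infinite cardinal `κ` there is a Boolean algebra `A`, for which a `κ`-completion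
exists, and a pair of `i'`, `B'` which is a `(J, M, κ)`-extension of `A` for all classes `J`, `M`, such
that no `κ`-completion of `A` lies below it. -/
theorem result (κ : Cardinal.{u}) (hκ : ℵ₀ ≤ κ) :
    ∃ (A : Type u) (_ : BooleanAlgebra A),
      (∃ (B : Type u) (_ : BooleanAlgebra B) (i : BoundedLatticeHom A B), IsMCompletion κ i) ∧
      ∃ (B' : Type u) (_ : BooleanAlgebra B') (i' : BoundedLatticeHom A B'),
        (∀ J M : Set (Set A), AdmissibleJoins κ J → AdmissibleMeets κ M →
          IsExtension J M κ i') ∧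
        ∀ (B : Type u) (_ : BooleanAlgebra B) (i : BoundedLatticeHom A B), IsMCompletion κ i →
          ¬ ∃ h : BoundedLatticeHom B' B, IsMHom κ h ∧ ∀ a, i a = h (i' a) := by
  classical
  obtain ⟨A, _, hA, ⟨M, _, j, hj, hjd⟩, B, _, i, hi, hno⟩ :=
    main κ ℵ₀ hκ le_rfl (fun c hc => hc.le.trans hκ) PUnit.{u + 1} PUnit.unit
  have hgen : ∀ {B : Type u} [BooleanAlgebra B] {i : PUnit.{u + 1} → BoundedLatticeHom A B},
      IsProduct κ ℵ₀ i → MGenerates κ (range (i PUnit.unit)) := by
    intro B _ i hi
    have := hi.generates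
    have h1 : (⋃ t, range (i t)) = range (i PUnit.unit) := by
      ext x
      constructor
      · intro hx
        obtain ⟨t, ht⟩ := mem_iUnion.1 hx
        exact ht
      · intro hx
        exact mem_iUnion.2 ⟨PUnit.unit, hx⟩
    rwa [h1] at this
  refine ⟨A, inferInstance, ⟨M, inferInstance, j PUnit.unit, ?_⟩,
    B, inferInstance, i PUnit.unit, ?_, ?_⟩
  · refine ⟨hj.isMAlgebra, hj.injective _, fun b hb => ?_, hgen hj⟩
    obtain ⟨T', a, m, hT', hm, hm0, hmb⟩ := hjd b hb
    by_cases h : PUnit.unit ∈ T'
    · have h1 : (fun t => j t (a t)) '' T' = {j PUnit.unit (a PUnit.unit)} := by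
        ext x
        constructor
        · rintro ⟨t, -, rfl⟩
          rfl
        · intro hx
          exact ⟨PUnit.unit, h, (eq_of_mem_singleton hx).symm⟩
      rw [h1] at hm
      exact ⟨a PUnit.unit, by rwa [hm.unique isGLB_singleton] at hm0,
        by rwa [hm.unique isGLB_singleton] at hmb⟩
    · have h1 : T' = ∅ := by
        rw [eq_empty_iff_forall_notMem]
        rintro ⟨⟩
        exact h
      rw [h1, image_empty] at hm
      have h2 : m = ⊤ := hm.unique isGLB_empty
      rw [h2] at hm0 hmb
      exact ⟨⊤, by rwa [map_top], by rwa [map_top]⟩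
  · intro J M' hJ hM
    refine ⟨hi.isMAlgebra, hi.injective _, fun S hS a ha => ?_, fun S hS a ha => ?_, hgen hi⟩
    · exact (hi.isMHom _ S (hJ S hS).1).1 a ha
    · exact (hi.isMHom _ S (hM S hS).1).2 a ha
  · intro C _ k hk
    rintro ⟨h, hh, hhk⟩
    refine hno C inferInstance (fun _ => k) hk.injective ?_ ?_ ⟨h, hh, fun t a => (hhk a).symm⟩
    · intro T' hT' a ha
      have hkA : ∀ b : A, b ≠ ⊥ → k b ≠ ⊥ := by
        intro b hb h0
        apply hb
        apply hk.injective
        rw [h0, map_bot]
      by_cases h : PUnit.unit ∈ T'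
      · refine ⟨k (a PUnit.unit), ?_, hkA _ (ha _ h)⟩
        have h1 : (fun t => k (a t)) '' T' = {k (a PUnit.unit)} := by
          ext x
          constructor
          · rintro ⟨t, -, rfl⟩
            rfl
          · intro hx
            exact ⟨PUnit.unit, h, (eq_of_mem_singleton hx).symm⟩
        rw [h1]
        exact isGLB_singleton
      · have h1 : T' = ∅ := by
          rw [eq_empty_iff_forall_notMem]
          rintro ⟨⟩
          exact h
        refine ⟨⊤, ?_, ?_⟩
        · rw [h1, image_empty]
          exact isGLB_empty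
        · rw [← map_top k]
          exact hkA _ top_ne_bot
    · intro b hb
      obtain ⟨a, ha0, hab⟩ := hk.dense b hb
      refine ⟨{PUnit.unit}, fun _ => a, k a, ?_, ?_, ha0, hab⟩
      · rw [mk_singleton]
        exact one_lt_aleph0
      · rw [image_singleton]
        exact isGLB_singleton

end Pool.Agent.Results.MP_69a01b_lc.NoSmallest
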